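import Pool.Agent.TightEmb.Defs
import Pool.Agent.TightEmb.Emb3

/-!
A continuous, injective, substantial, tight and centrally symmetric map
`S^k × S^k → E^N` (`k ≥ 1`) satisfies `N ≤ 2k + 2`.
-/

namespace Pool.Agent.Results.MP_b873ea_gt.KuehnelBound

open Pool.Agent.TightEmb

lemma inj_congr {M : Type*} [TopologicalSpace M] {A B : Set M} (h : A = B) (m : ℕ)
    (hA : Function.Injective (cechMap (Subtype.val : A → M) continuous_subtype_val m)) :
    Function.Injective (cechMap (Subtype.val : B → M) continuous_subtype_val m) := by
  subst h
  exact hA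

theorem result (k N : ℕ) (hk : 1 ≤ k) (f : SpherePair k → EuclideanSpace ℝ (Fin N))
    (hcont : Continuous f) (hinj : Function.Injective f) (htight : IsTight f)
    (hsub : IsSubstantial f) (hsym : IsCentrallySymmetric f) : N ≤ 2 * k + 2 := by
  by_contra hN
  push Not at hN
  obtain ⟨n, rfl⟩ : ∃ n, N = n + 1 := ⟨N - 1, by omega⟩
  obtain ⟨c, hc⟩ := hsym
  have hne : ∀ u : Sp n, u.1 ≠ 0 := by
    intro u h0
    have h3 : ‖u.1‖ = 1 := by simp
    rw [h0, norm_zero] at h3
    exact zero_ne_one h3
  let F : Emb k n :=
    { g := fun x => f x - c
      hk := hk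
      cont := hcont.sub continuous_const
      inj := fun x y h => hinj (sub_left_injective h)
      sym := by
        intro x
        obtain ⟨y, hy⟩ := hc (f x) ⟨x, rfl⟩
        refine ⟨y, ?_⟩
        rw [hy, two_smul]
        abel
      nd := by
        intro u
        by_contra hcon
        push Not at hcon
        apply hsub
        refine ⟨u.1, inner ℝ u.1 c, hne u, fun x => ?_⟩
        have := hcon x
        rw [inner_sub_right, sub_eq_zero] at this
        exact this
      tight := by
        intro u t m
        refine inj_congr ?_ m (htight u.1 (t + inner ℝ u.1 c) (hne u) m)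
        ext x
        simp only [Set.mem_ofPred_eq, inner_sub_right]
        constructor <;> intro h <;> linarith }
  exact F.main (by omega)

end Pool.Agent.Results.MP_b873ea_gt.KuehnelBound
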